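import Pool.Agent.R48.KT.Main

/-!
# MP_42ff57_nt: triple counts for the Kasami APN function (TRUE for all `n` and `k`)
-/

namespace Pool.Agent.Results.MP_42ff57_nt.KasamiTriples

open Pool.Agent.R48.KT Finset
open scoped Classical

/-- The Kasami power map `x ↦ x^(4^k - 2^k + 1)`. -/
def kasami {F : Type} [Field F] (k : ℕ) (x : F) : F := x ^ (4 ^ k - 2 ^ k + 1)

/-- The set `Δ = {F(b) + F(b+1) + 1 : b ∈ GF(2^n)}`. -/
def Delta (F : Type) [Field F] (k : ℕ) : Set F :=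
  {x | ∃ b : F, x = kasami k b + kasami k (b + 1) + 1}

/-- The number `N(v₁,v₂)` of triples `(x,y,z) ∈ Δ³` with `v₁ x + v₂ y + (v₁+v₂) z = 0`. -/
noncomputable def tripleCount (F : Type) [Field F] (k : ℕ) (v₁ v₂ : F) : ℕ :=
  Set.ncard {p : F × F × F | p.1 ∈ Delta F k ∧ p.2.1 ∈ Delta F k ∧ p.2.2 ∈ Delta F k ∧
    v₁ * p.1 + v₂ * p.2.1 + (v₁ + v₂) * p.2.2 = 0}

/-- MAIN -/
theorem result (n k : ℕ) (_hk : 1 ≤ k) (hcop : Nat.gcd k n = 1)
    (F : Type) [Field F] [Finite F] (hF : Nat.card F = 2 ^ n)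
    (v₁ v₂ : F) (h₁ : v₁ ≠ 0) (h₂ : v₂ ≠ 0) (h₁₂ : v₁ ≠ v₂) :
    tripleCount F k v₁ v₂ = 2 ^ (2 * n - 3) := by
  have : Fintype F := Fintype.ofFinite F
  have hcard : Fintype.card F = 2 ^ n := by rw [← Nat.card_eq_fintype_card]; exact hF
  have h := main F n k hcard hcop v₁ v₂ h₁ h₂ h₁₂
  have hmem : ∀ x : F, x ∈ Delta F k ↔ x ∈ DeltaK F k := by
    intro x
    unfold Delta DeltaK kasami fK
    simp only [Set.mem_ofPred_eq, Finset.mem_image, Finset.mem_univ, true_and]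
    constructor
    · rintro ⟨b, hb⟩; exact ⟨b, hb.symm⟩
    · rintro ⟨b, hb⟩; exact ⟨b, hb.symm⟩
  unfold tripleCount
  have hset : {p : F × F × F | p.1 ∈ Delta F k ∧ p.2.1 ∈ Delta F k ∧ p.2.2 ∈ Delta F k ∧
      v₁ * p.1 + v₂ * p.2.1 + (v₁ + v₂) * p.2.2 = 0}
      = ((univ.filter fun p : F × F × F => p.1 ∈ DeltaK F k ∧ p.2.1 ∈ DeltaK F k ∧
        p.2.2 ∈ DeltaK F k ∧ v₁ * p.1 + v₂ * p.2.1 + (v₁ + v₂) * p.2.2 = 0 :
          Finset (F × F × F)) : Set (F × F × F)) := by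
    ext p
    simp only [Set.mem_ofPred_eq, Finset.coe_filter, Finset.mem_univ, true_and, hmem]
  rw [hset, Set.ncard_coe_finset]
  unfold NK at h
  exact_mod_cast h

end Pool.Agent.Results.MP_42ff57_nt.KasamiTriples
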